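import Pool.Agent.Helper20.PL.Unif

/-! # Three coordinates of different absolute values: interfaces -/

open MvPolynomial

namespace Pool.Agent.Helper69.Y13
open Pool.Agent.Helper11.ZP Pool.Agent.Helper20.DL Pool.Agent.Helper69.DL Pool.Agent.Helper11.LC

/-- `v`-adically separated roots: a root of the coefficient of `X ^ i` near a root of the constant
coefficient is equal to it -/
def SepRoots (v : AbsoluteValue ℂ ℝ) (H : MvPolynomial (Fin 2) ℤ) : Prop :=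
  ∀ (κ θ : ℂ) (i : ℕ), ev H 0 κ = 0 → v κ = 1 → (∃ m ∈ H.support, m 0 = i) →
    (inX H θ).coeff i = 0 → v (θ - κ) < 1 → θ = κ

/-- no Wieferich roots: the roots of the constant coefficient are not close to roots of unity -/
def NonWief (v : AbsoluteValue ℂ ℝ) (p : ℕ) (H : MvPolynomial (Fin 2) ℤ) : Prop :=
  ∀ κ η : ℂ, ev H 0 κ = 0 → v κ = 1 → (∃ g : ℕ, 0 < g ∧ η ^ g = 1) → v (p : ℂ) ≤ v (κ - η)

/-- `H(z ^ a, z ^ b)` is small on `V`, at the points at which `z ^ a`, `z ^ b` are integral -/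
def HoldsW {n : ℕ} (v : AbsoluteValue ℂ ℝ) (r : ℝ) (H : MvPolynomial (Fin 2) ℤ) (V : Set (Fin n → ℂ))
    (a b : Fin n → ℤ) : Prop :=
  ∀ z ∈ V, (∀ i, z i = 0 → 0 ≤ a i ∧ 0 ≤ b i) → v (∏ i, z i ^ a i) ≤ 1 → v (∏ i, z i ^ b i) ≤ 1 →
    v (ev H (∏ i, z i ^ a i) (∏ i, z i ^ b i)) ≤ r

/-- the relations between the inverse of a coordinate and a monomial of degree zero with exponents at most `K` -/
structure Local3 {n : ℕ} (v : AbsoluteValue ℂ ℝ) (p K : ℕ) (V : Set (Fin n → ℂ)) : Prop where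
  /-- the relations -/
  rel : ∀ (e : Fin n) (c : Fin n → ℤ), c ≠ 0 → ∑ i, c i = 0 → (∀ i, |c i| ≤ K) →
    ∃ (H : MvPolynomial (Fin 2) ℤ) (D : ℕ), (∀ m ∈ H.support, m 0 ≤ D ∧ m 1 ≤ D) ∧
      (∃ m : Fin 2 →₀ ℕ, m 0 = 0 ∧ v ((H.coeff m : ℤ) : ℂ) = 1) ∧ SepRoots v H ∧ NonWief v p H ∧
      HoldsW v (v (p : ℂ) ^ (D + 1)) H V (Pi.single e (-1)) c

end Pool.Agent.Helper69.Y13
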