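import Pool.Agent.Helper69.Y13.Sharp
import Pool.Agent.Helper20.DL.Exc2
import Pool.Agent.Helper69.DL.Gap

/-! # Numbers near roots of unity; monomials in three isogenous numbers -/

open Finset

namespace Pool.Agent.Helper69.Y13
open Pool.Agent.Helper20.ZD Pool.Agent.Helper20.DL Pool.Agent.Helper11.LC Pool.Agent.Helper11.ZP
  Pool.Agent.Helper11.ZU

variable {v : AbsoluteValue ℂ ℝ}

/-- `x` is near a root of unity -/
def RN (v : AbsoluteValue ℂ ℝ) (ρ : ℝ) (x : ℂ) : Prop := ∃ (η : ℂ) (j : ℕ), 0 < j ∧ η ^ j = 1 ∧ v (x - η) ≤ ρ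

namespace RN

variable {ρ : ℝ} {x y : ℂ}

lemma v_eq (hv : IsNonarchimedean v) (hρ : ρ < 1) (h : RN v ρ x) : v x = 1 := by
  obtain ⟨η, j, hj, hη, h1⟩ := h
  have h2 : v η = 1 := val_root hj hη
  rw [v_eq_of_sub_lt hv (c := η) (by rw [h2]; exact h1.trans_lt hρ), h2]

lemma ne_zero (hv : IsNonarchimedean v) (hρ : ρ < 1) (h : RN v ρ x) : x ≠ 0 := by
  rw [← AbsoluteValue.ne_zero_iff v, h.v_eq hv hρ]
  exact one_ne_zero

lemma mul (hv : IsNonarchimedean v) (hρ : ρ < 1) (hx : RN v ρ x) (hy : RN v ρ y) : RN v ρ (x * y) := by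
  obtain ⟨η, j, hj, hη, h1⟩ := id hx
  obtain ⟨ξ, k, hk, hξ, h2⟩ := id hy
  refine ⟨η * ξ, j * k, Nat.mul_pos hj hk, ?_, ?_⟩
  · rw [mul_pow, pow_mul, hη, one_pow, mul_comm j k, pow_mul, hξ, one_pow, one_mul]
  · have e : x * y - η * ξ = x * (y - ξ) + (x - η) * ξ := by ring
    rw [e]
    refine (hv _ _).trans (max_le ?_ ?_)
    · rw [map_mul, hx.v_eq hv hρ, one_mul]
      exact h2
    · rw [map_mul, val_root hk hξ, mul_one]
      exact h1

lemma inv (hv : IsNonarchimedean v) (hρ : ρ < 1) (hx : RN v ρ x) : RN v ρ x⁻¹ := by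
  obtain ⟨η, j, hj, hη, h1⟩ := id hx
  have hx0 := hx.ne_zero hv hρ
  have hv1 := val_root (v := v) hj hη
  have hη0 : η ≠ 0 := by
    rw [← AbsoluteValue.ne_zero_iff v, hv1]
    exact one_ne_zero
  refine ⟨η⁻¹, j, hj, by rw [inv_pow, hη, inv_one], ?_⟩
  have e : x⁻¹ - η⁻¹ = -((x - η) / (x * η)) := by
    field_simp
    ring
  rw [e, v_neg, map_div₀, map_mul, hx.v_eq hv hρ, hv1, one_mul, div_one]
  exact h1

lemma one (h0 : 0 ≤ ρ) : RN v ρ 1 := ⟨1, 1, one_pos, by simp, by simpa using h0⟩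

lemma nonneg (hx : RN v ρ x) : 0 ≤ ρ := by
  obtain ⟨η, j, hj, hη, h1⟩ := hx
  exact (v.nonneg _).trans h1

lemma pow (hv : IsNonarchimedean v) (hρ : ρ < 1) (hx : RN v ρ x) (k : ℕ) : RN v ρ (x ^ k) := by
  induction k with
  | zero => rw [pow_zero]; exact one hx.nonneg
  | succ k ih => rw [pow_succ]; exact ih.mul hv hρ hx

lemma zpow (hv : IsNonarchimedean v) (hρ : ρ < 1) (hx : RN v ρ x) (k : ℤ) : RN v ρ (x ^ k) := by
  rcases k with k | k
  · simpa using hx.pow hv hρ k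
  · rw [_root_.zpow_negSucc]
    exact (hx.pow hv hρ _).inv hv hρ

lemma mono {ρ' : ℝ} (hx : RN v ρ x) (h : ρ ≤ ρ') : RN v ρ' x := by
  obtain ⟨η, j, hj, hη, h1⟩ := hx
  exact ⟨η, j, hj, hη, h1.trans h⟩

/-- roots of exponent prime to `p` -/
lemma of_pow (hv : IsNonarchimedean v) (hρ : ρ < 1) {p : ℕ} (hp : p.Prime) (hvp : v (p : ℂ) < 1) {n : ℕ}
    (hn : 0 < n) (hpn : ¬ p ∣ n) (h : RN v ρ (x ^ n)) : RN v ρ x := by
  obtain ⟨η, j, hj, hη, h1⟩ := id h
  have hvη := val_root (v := v) hj hη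
  have hη0 : η ≠ 0 := by
    rw [← AbsoluteValue.ne_zero_iff v, hvη]
    exact one_ne_zero
  obtain ⟨ζ, hζ⟩ := IsAlgClosed.exists_pow_nat_eq η hn
  have hζj : ζ ^ (n * j) = 1 := by rw [pow_mul, hζ, hη]
  have hζ0 : ζ ≠ 0 := by
    rintro rfl
    rw [zero_pow hn.ne'] at hζ
    exact hη0 hζ.symm
  have hvζ := val_root (v := v) (Nat.mul_pos hn hj) hζj
  have h2 : v ((x / ζ) ^ n - 1) ≤ ρ := by
    have e : (x / ζ) ^ n - 1 = (x ^ n - η) / η := by
      rw [div_pow, hζ]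
      field_simp
    rw [e, map_div₀, hvη, div_one]
    exact h1
  obtain ⟨ω, hω, h3⟩ := root_extract (v := v) hn hρ h2
  have hω0 : ω ≠ 0 := by
    rintro rfl
    rw [zero_pow hn.ne'] at hω
    exact zero_ne_one hω
  have hvω := val_root (v := v) hn hω
  have h4 : v (x / ζ - ω) < 1 := by
    by_contra hcon
    push Not at hcon
    exact absurd (h3.trans_lt hρ) (not_lt.2 (one_le_pow₀ hcon))
  set y := x / ζ / ω with hy
  have h5 : v (y - 1) < 1 := by
    have e : y - 1 = (x / ζ - ω) / ω := by rw [hy]; field_simp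
    rw [e, map_div₀, hvω, div_one]
    exact h4
  have h6 : y ^ n - 1 = (x / ζ) ^ n - 1 := by rw [hy, div_pow, hω, div_one]
  have h7 : v (∑ i ∈ range n, y ^ i) = 1 := by
    have e : ∑ i ∈ range n, y ^ i = (n : ℂ) + ∑ i ∈ range n, (y ^ i - 1) := by
      rw [sum_sub_distrib, sum_const, card_range, nsmul_eq_mul, mul_one]
      ring
    have vn : v (n : ℂ) = 1 := Pool.Agent.Helper69.DL.v_nat_eq_one hv hp hvp hpn
    have hvy : v y = 1 := v_one_of_near hv h5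
    have e2 : v (∑ i ∈ range n, (y ^ i - 1)) ≤ v (y - 1) := by
      refine val_sum_le hv _ _ (v.nonneg _) fun i _ => ?_
      exact val_pow_sub_one hv hvy.le i
    rw [e, v_add_eq hv (by rw [vn]; exact e2.trans_lt h5), vn]
  have h8 : v (y - 1) ≤ ρ := by
    have e := mul_geom_sum y n
    have e2 := congrArg v e
    rw [map_mul, h7, mul_one, h6] at e2
    rw [e2]
    exact h2
  refine ⟨ζ * ω, n * j, Nat.mul_pos hn hj, ?_, ?_⟩
  · rw [mul_pow, hζj, one_mul, pow_mul, hω, one_pow]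
  · have e : x - ζ * ω = ζ * ω * (y - 1) := by rw [hy]; field_simp
    rw [e, map_mul, map_mul, hvζ, hvω, one_mul, one_mul]
    exact h8

end RN

lemma zpow_sum' {K : Type*} [Field K] {a : K} (h : a ≠ 0) {ι : Type*} (s : Finset ι) (f : ι → ℤ) :
    a ^ (∑ j ∈ s, f j) = ∏ j ∈ s, a ^ f j := by
  classical
  induction s using Finset.induction_on with
  | empty => simp
  | insert b s hb ih => rw [sum_insert hb, prod_insert hb, zpow_add₀ h, ih]

/-- the exponents of a relation between absolute values are multiples of the coprime ones -/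
lemma exists_mul {a b : ℝ} (ha : 1 < a) {e f w w' : ℕ} (he : 0 < e)
    (hcop : Nat.Coprime e f) (hw : 0 < w) (h : a ^ f = b ^ e) (h' : a ^ w' = b ^ w) :
    ∃ t : ℕ, 0 < t ∧ w' = f * t ∧ w = e * t := by
  have h1 : a ^ (f * w) = a ^ (w' * e) := by
    rw [pow_mul, h, pow_mul, h', ← pow_mul, ← pow_mul, mul_comm]
  have h2 : f * w = w' * e := pow_right_injective₀ (zero_lt_one.trans ha) ha.ne' h1
  have h3 : e ∣ w := hcop.dvd_of_dvd_mul_left (by rw [h2]; exact dvd_mul_left _ _)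
  obtain ⟨t, rfl⟩ := h3
  refine ⟨t, Nat.pos_of_mul_pos_left hw, ?_, rfl⟩
  have h4 : (f * t) * e = w' * e := by rw [← h2]; ring
  exact (Nat.eq_of_mul_eq_mul_right he h4).symm

/-- **monomials of absolute value one in three isogenous numbers** are near roots of unity -/
theorem monomial_near (hv : IsNonarchimedean v) {ρ : ℝ} (hρ : ρ < 1) {p : ℕ} (hp : p.Prime)
    (hvp : v (p : ℂ) < 1) {X : Fin 3 → ℂ} (hX : ∀ i, 1 < v (X i))
    (hpair : ∀ i j, i ≠ j → ∃ e f : ℕ, 0 < e ∧ 0 < f ∧ Nat.Coprime e f ∧ v (X i) ^ f = v (X j) ^ e ∧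
      RN v ρ (X i ^ f / X j ^ e)) {c : Fin 3 → ℤ} (hc : ∏ i, v (X i) ^ c i = 1) :
    RN v ρ (∏ i, X i ^ c i) := by
  have h0 : ∀ i, 0 < v (X i) := fun i => zero_lt_one.trans (hX i)
  have hX0 : ∀ i, X i ≠ 0 := fun i => (AbsoluteValue.pos_iff v).1 (h0 i)
  have hρ0 : 0 ≤ ρ := by
    obtain ⟨e, f, -, -, -, -, h⟩ := hpair 0 1 (by decide)
    exact h.nonneg
  -- a primitive vector of exponents
  obtain ⟨w, hwpos, hwval, i₀, hi₀⟩ : ∃ w : Fin 3 → ℕ, (∀ i, 0 < w i) ∧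
      (∀ i j, v (X i) ^ w j = v (X j) ^ w i) ∧ ∃ i, ¬ p ∣ w i := by
    obtain ⟨e₁, f₁, he₁, hf₁, -, h1, -⟩ := hpair 0 1 (by decide)
    obtain ⟨e₂, f₂, he₂, hf₂, -, h2, -⟩ := hpair 0 2 (by decide)
    set W : Fin 3 → ℕ := ![e₁ * e₂, f₁ * e₂, e₁ * f₂] with hW
    have hWpos : ∀ i, 0 < W i := by
      intro i
      fin_cases i
      · exact Nat.mul_pos he₁ he₂
      · exact Nat.mul_pos hf₁ he₂
      · exact Nat.mul_pos he₁ hf₂
    have hW01 : v (X 0) ^ W 1 = v (X 1) ^ W 0 := by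
      change v (X 0) ^ (f₁ * e₂) = v (X 1) ^ (e₁ * e₂)
      rw [pow_mul, h1, ← pow_mul]
    have hW02 : v (X 0) ^ W 2 = v (X 2) ^ W 0 := by
      change v (X 0) ^ (e₁ * f₂) = v (X 2) ^ (e₁ * e₂)
      rw [mul_comm e₁ f₂, mul_comm e₁ e₂, pow_mul, h2, ← pow_mul]
    have hinj : ∀ {a b : ℝ}, 0 ≤ a → 0 ≤ b → a ^ W 0 = b ^ W 0 → a = b := fun ha hb h =>
      (pow_left_inj₀ ha hb (hWpos 0).ne').1 h
    have hW12 : v (X 1) ^ W 2 = v (X 2) ^ W 1 := by
      refine hinj (pow_nonneg (h0 1).le _) (pow_nonneg (h0 2).le _) ?_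
      rw [← pow_mul, mul_comm, pow_mul, ← hW01, ← pow_mul, mul_comm, pow_mul, hW02, ← pow_mul, ← pow_mul,
        mul_comm]
    have hWval : ∀ i j, v (X i) ^ W j = v (X j) ^ W i := by
      intro i j
      fin_cases i <;> fin_cases j
      · rfl
      · exact hW01
      · exact hW02
      · exact hW01.symm
      · rfl
      · exact hW12
      · exact hW02.symm
      · exact hW12.symm
      · rfl
    set g := Nat.gcd (W 0) (Nat.gcd (W 1) (W 2)) with hg
    have hg0 : 0 < g := Nat.gcd_pos_of_pos_left _ (hWpos 0)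
    have hgd : ∀ i, g ∣ W i := by
      intro i
      fin_cases i
      · exact Nat.gcd_dvd_left _ _
      · exact (Nat.gcd_dvd_right _ _).trans (Nat.gcd_dvd_left _ _)
      · exact (Nat.gcd_dvd_right _ _).trans (Nat.gcd_dvd_right _ _)
    choose w hw using hgd
    refine ⟨w, fun i => ?_, fun i j => ?_, ?_⟩
    · have := hWpos i
      rw [hw i] at this
      exact Nat.pos_of_mul_pos_left this
    · have h := hWval i j
      rw [hw i, hw j, mul_comm g, mul_comm g, pow_mul, pow_mul] at h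
      exact (pow_left_inj₀ (pow_nonneg (h0 i).le _) (pow_nonneg (h0 j).le _) hg0.ne').1 h
    · by_contra hcon
      push Not at hcon
      have h3 : g * p ∣ g := by
        refine Nat.dvd_gcd ?_ (Nat.dvd_gcd ?_ ?_)
        · rw [hw 0]; exact Nat.mul_dvd_mul_left g (hcon 0)
        · rw [hw 1]; exact Nat.mul_dvd_mul_left g (hcon 1)
        · rw [hw 2]; exact Nat.mul_dvd_mul_left g (hcon 2)
      have h4 := Nat.le_of_dvd hg0 h3
      have h5 := hp.two_le
      nlinarith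
  -- the relation with the exponents `w`
  have hrel : ∀ j, RN v ρ (X j ^ w i₀ / X i₀ ^ w j) := by
    intro j
    by_cases hj : j = i₀
    · subst hj
      rw [div_self (pow_ne_zero _ (hX0 _))]
      exact RN.one hρ0
    · obtain ⟨e, f, he, -, hcop, hval, hRN⟩ := hpair j i₀ hj
      obtain ⟨t, ht, h1, h2⟩ := exists_mul (hX j) he hcop (hwpos j) hval (hwval j i₀)
      rw [h1, h2, pow_mul, pow_mul, ← div_pow]
      exact hRN.pow hv hρ t
  have hsum : ∑ j, (w j : ℤ) * c j = 0 := by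
    have h1 : v (X i₀) ^ (∑ j, (w j : ℤ) * c j) = 1 := by
      have h2 : ∀ j, v (X i₀) ^ ((w j : ℤ) * c j) = (v (X j) ^ c j) ^ w i₀ := by
        intro j
        rw [zpow_mul, zpow_natCast, hwval i₀ j, ← zpow_natCast, ← zpow_mul, mul_comm, zpow_mul, zpow_natCast]
      rw [zpow_sum' (h0 i₀).ne', prod_congr rfl fun j _ => h2 j, prod_pow, hc, one_pow]
    by_contra hne
    exact hne ((zpow_eq_one_iff_right₀ (h0 i₀).le (hX i₀).ne').1 h1)
  refine RN.of_pow hv hρ hp hvp (hwpos i₀) hi₀ ?_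
  have e : (∏ i, X i ^ c i) ^ w i₀ = ∏ j, (X j ^ w i₀ / X i₀ ^ w j) ^ c j := by
    have e1 : ∀ j, (X j ^ w i₀ / X i₀ ^ w j) ^ c j = (X j ^ c j) ^ w i₀ / X i₀ ^ ((w j : ℤ) * c j) := by
      intro j
      rw [div_zpow, ← zpow_natCast, ← zpow_mul, mul_comm, zpow_mul, zpow_natCast, zpow_mul, zpow_natCast]
    rw [prod_congr rfl fun j _ => e1 j, prod_div_distrib, prod_pow, ← zpow_sum' (hX0 i₀), hsum, zpow_zero,
      div_one]
  rw [e]
  have key : ∀ s : Finset (Fin 3), RN v ρ (∏ j ∈ s, (X j ^ w i₀ / X i₀ ^ w j) ^ c j) := by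
    intro s
    induction s using Finset.induction_on with
    | empty => rw [prod_empty]; exact RN.one hρ0
    | insert a s ha ih =>
      rw [prod_insert ha]
      exact ((hrel a).zpow hv hρ _).mul hv hρ ih
  exact key univ

/-- **three isogenous numbers**: monomials of absolute value one, modulo `p ^ 2` -/
theorem sharp_monomial (hv : IsNonarchimedean v) {p : ℕ} (hp : p.Prime) (hvp : v (p : ℂ) < 1) {x : Fin 3 → ℂ}
    (hx : ∀ i, (v (p : ℂ))⁻¹ ≤ v (x i)) (hiso : ∀ i j, i ≠ j → ∃ N : ℕ, 0 < N ∧ CyclicIsog N (x i) (x j))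
    {c : Fin 3 → ℤ} (hc : ∏ i, v (x i) ^ c i = 1) : RN v (v (p : ℂ) ^ 2) (∏ i, (x i - 744) ^ c i) := by
  have hp0 : 0 < v (p : ℂ) := (AbsoluteValue.pos_iff v).2 (by exact_mod_cast hp.ne_zero)
  have hx1 : ∀ i, 1 < v (x i) := fun i => ((one_lt_inv₀ hp0).2 hvp).trans_le (hx i)
  have hX : ∀ i, v (x i - 744) = v (x i) := fun i => v_sub_744 hv (hx1 i)
  refine monomial_near hv (pow_lt_one₀ hp0.le hvp two_ne_zero) hp hvp (X := fun i => x i - 744)
    (fun i => by rw [hX]; exact hx1 i) (fun i j hij => ?_) (by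
      rw [← hc]
      exact prod_congr rfl fun i _ => by rw [hX])
  obtain ⟨N, hN, h⟩ := hiso i j hij
  obtain ⟨e, f, g, ζ, he, hf, hcop, hg, hval, -, hζ, hnear⟩ := sharp_shape hv (hx1 i) (hx1 j) hN h
  refine ⟨e, f, he, hf, hcop, by rw [hX, hX]; exact hval, ζ, g, hg, hζ.pow_eq_one, ?_⟩
  rw [v_sub_comm]
  refine hnear.trans ?_
  have h1 : ∀ i, ((v (x i))⁻¹) ^ 2 ≤ v (p : ℂ) ^ 2 := fun i => by
    refine pow_le_pow_left₀ (inv_nonneg.2 (v.nonneg _)) ?_ 2
    rw [inv_le_comm₀ (zero_lt_one.trans (hx1 i)) hp0]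
    exact hx i
  exact max_le (h1 i) (h1 j)

end Pool.Agent.Helper69.Y13
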