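import Pool.Agent.Helper69.Y13.Fin3
import Pool.Agent.Helper69.Y13.Root
import Pool.Agent.Helper11.ZU.Hyper

/-! # Three isogenous coordinates of different absolute values -/

open Finset

namespace Pool.Agent.Helper69.Y13
open Pool.Agent.Helper11.ZP Pool.Agent.Helper11.ZU Pool.Agent.Helper20.ZD Pool.Agent.Helper20.DL
  Pool.Agent.Helper11.LC Pool.Agent.Helper20.NB

variable {n : ℕ} {v : AbsoluteValue ℂ ℝ}

/-- a vector with three entries -/
def cvec (i j l : Fin n) (a b c : ℤ) (t : Fin n) : ℤ := if t = i then a else if t = j then b else if t = l then c else 0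

lemma prod_cvec {M : Type*} [CommMonoid M] {i j l : Fin n} (hij : i ≠ j) (hil : i ≠ l) (hjl : j ≠ l)
    (f : Fin n → ℤ → M) (hf : ∀ t, f t 0 = 1) (a b c : ℤ) :
    ∏ t, f t (cvec i j l a b c t) = f i a * f j b * f l c := by
  classical
  rw [← Finset.mul_prod_erase _ _ (mem_univ i), ← Finset.mul_prod_erase _ _ (mem_erase.2 ⟨hij.symm, mem_univ j⟩),
    ← Finset.mul_prod_erase _ _ (mem_erase.2 ⟨hjl.symm, mem_erase.2 ⟨hil.symm, mem_univ l⟩⟩),
    Finset.prod_eq_one, mul_one, mul_assoc]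
  · simp [cvec, hij.symm, hil.symm, hjl.symm]
  · intro x hx
    rw [mem_erase, mem_erase, mem_erase] at hx
    simp [cvec, hx.1, hx.2.1, hx.2.2.1, hf]

lemma sum_cvec {i j l : Fin n} (hij : i ≠ j) (hil : i ≠ l) (hjl : j ≠ l) (a b c : ℤ) :
    ∑ t, cvec i j l a b c t = a + b + c := by
  have h := prod_cvec (M := Multiplicative ℤ) hij hil hjl (fun _ s => Multiplicative.ofAdd s)
    (fun _ => rfl) a b c
  exact h

/-- the local parameters near a finite set, for one relation -/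
lemma disc_one (hv : IsNonarchimedean v) {p : ℕ} (hp : p.Prime) (hvp : v (p : ℂ) < 1) {K : ℕ}
    {V : Set (Fin n → ℂ)} (h3 : Local3 v p K V) (G : ℕ) {e : Fin n} {c : Fin n → ℤ} (hc0 : c ≠ 0)
    (hcs : ∑ i, c i = 0) (hcK : ∀ i, |c i| ≤ K) :
    ∃ (T : Finset ℂ) (ρ : ℝ), 0 ≤ ρ ∧ ρ < 1 ∧ ∀ z ∈ V, 1 < v (z e) → (∀ i, z i = 0 → c i = 0) →
      ∀ (η : ℂ) (g : ℕ), 0 < g → g ≤ G → η ^ g = 1 → v (∏ i, z i ^ c i - η) ≤ v (p : ℂ) ^ 2 →
        ∃ τ ∈ T, v (z e - τ) ≤ ρ * v τ := by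
  classical
  have hp0 : 0 < v (p : ℂ) := v.pos (by exact_mod_cast hp.ne_zero)
  obtain ⟨H, D, hD, hbot, hsep, hW, hH⟩ := h3.rel e c hc0 hcs hcK
  obtain ⟨T, hT0, hT⟩ := fin_w hv hp hvp hD hbot hsep hW G
  obtain ⟨ρ, h0, h1, h2⟩ := exists_rho hvp hp0.le D
  refine ⟨T.image fun τ => τ⁻¹, ρ, h0, h1, fun z hz hze hzc η g hg hgG hη hs => ?_⟩
  have hze0 : z e ≠ 0 := by
    intro h
    rw [h, map_zero] at hze
    exact absurd hze (not_lt.2 zero_le_one)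
  have hw : v (z e)⁻¹ < 1 := by
    rw [map_inv₀]
    exact inv_lt_one_of_one_lt₀ hze
  have hs1 : v (∏ i, z i ^ c i) = 1 := by
    have h4 : v η = 1 := val_root hg hη
    have h5 : v (p : ℂ) ^ 2 < 1 := pow_lt_one₀ hp0.le hvp two_ne_zero
    rw [v_eq_of_sub_lt hv (c := η) (by rw [h4]; exact hs.trans_lt h5), h4]
  have hx : ∏ i, z i ^ (Pi.single e (-1) : Fin n → ℤ) i = (z e)⁻¹ := by
    rw [prod_single, zpow_neg, zpow_one]
  have hev := hH z hz (fun i hi => by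
    have hie : i ≠ e := fun h => hze0 (h ▸ hi)
    rw [Pi.single_eq_of_ne hie, hzc i hi]
    exact ⟨le_rfl, le_rfl⟩) (by rw [hx]; exact hw.le) hs1.le
  rw [hx] at hev
  obtain ⟨τ, hτ, h6⟩ := hT (z e)⁻¹ _ η g hg hgG hη (inv_ne_zero hze0) hw hev hs
  refine ⟨τ⁻¹, Finset.mem_image_of_mem _ hτ, ?_⟩
  have hτ0 := hT0 τ hτ
  have h7 : v ((z e)⁻¹ / τ - 1) ≤ ρ := by
    by_contra hcon
    push Not at hcon
    exact absurd (h2.trans_le (pow_le_pow_left₀ h0 hcon.le D)) (not_lt.2 h6)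
  have h8 := near_inv hv h1 h7
  have h9 : z e - τ⁻¹ = (((z e)⁻¹ / τ)⁻¹ - 1) * τ⁻¹ := by field_simp
  rw [h9, map_mul]
  exact mul_le_mul_of_nonneg_right h8 (v.nonneg _)

/-- the local parameters near a finite set -/
lemma disc_all (hv : IsNonarchimedean v) {p : ℕ} (hp : p.Prime) (hvp : v (p : ℂ) < 1) {K : ℕ}
    {V : Set (Fin n → ℂ)} (h3 : Local3 v p K V) (G : ℕ) :
    ∃ (T : Finset ℂ) (ρ : ℝ), 0 ≤ ρ ∧ ρ < 1 ∧ ∀ (e : Fin n) (c : Fin n → ℤ), c ≠ 0 → ∑ i, c i = 0 →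
      (∀ i, |c i| ≤ K) → ∀ z ∈ V, 1 < v (z e) → (∀ i, z i = 0 → c i = 0) →
      ∀ (η : ℂ) (g : ℕ), 0 < g → g ≤ G → η ^ g = 1 → v (∏ i, z i ^ c i - η) ≤ v (p : ℂ) ^ 2 →
        ∃ τ ∈ T, v (z e - τ) ≤ ρ * v τ := by
  classical
  let C : Finset (Fin n → ℤ) := Fintype.piFinset fun _ => Finset.Icc (-(K : ℤ)) K
  let I : Finset (Fin n × (Fin n → ℤ)) := univ ×ˢ C
  have h1 : ∀ q : Fin n × (Fin n → ℤ), ∃ (T : Finset ℂ) (ρ : ℝ), 0 ≤ ρ ∧ ρ < 1 ∧ (q.2 ≠ 0 → ∑ i, q.2 i = 0 →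
      (∀ i, |q.2 i| ≤ K) → ∀ z ∈ V, 1 < v (z q.1) → (∀ i, z i = 0 → q.2 i = 0) →
      ∀ (η : ℂ) (g : ℕ), 0 < g → g ≤ G → η ^ g = 1 → v (∏ i, z i ^ q.2 i - η) ≤ v (p : ℂ) ^ 2 →
        ∃ τ ∈ T, v (z q.1 - τ) ≤ ρ * v τ) := by
    rintro ⟨e, c⟩
    by_cases h : c ≠ 0 ∧ ∑ i, c i = 0 ∧ ∀ i, |c i| ≤ K
    · obtain ⟨T, ρ, h0, h1, h2⟩ := disc_one hv hp hvp h3 G (e := e) h.1 h.2.1 h.2.2
      exact ⟨T, ρ, h0, h1, fun _ _ _ => h2⟩
    · exact ⟨∅, 0, le_rfl, zero_lt_one, fun a b c => absurd ⟨a, b, c⟩ h⟩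
  choose T ρ hρ0 hρ1 hT using h1
  have hsup : ∃ r : ℝ, 0 ≤ r ∧ r < 1 ∧ ∀ q ∈ I, ρ q ≤ r := by
    rcases I.eq_empty_or_nonempty with hI | hI
    · exact ⟨0, le_rfl, zero_lt_one, fun q hq => by rw [hI] at hq; exact absurd hq (Finset.notMem_empty q)⟩
    · obtain ⟨q₀, hq₀, hmax⟩ := Finset.exists_max_image I ρ hI
      exact ⟨ρ q₀, hρ0 q₀, hρ1 q₀, hmax⟩
  obtain ⟨r, hr0, hr1, hr⟩ := hsup
  refine ⟨I.biUnion T, r, hr0, hr1, fun e c hc0 hcs hcK z hz hze hzc η g hg hgG hη hs => ?_⟩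
  have hmem : (e, c) ∈ I := by
    simp only [I, C, mem_product, mem_univ, true_and, Fintype.mem_piFinset, mem_Icc]
    exact fun i => abs_le.1 (hcK i)
  obtain ⟨τ, hτ, h2⟩ := hT (e, c) hc0 hcs hcK z hz hze hzc η g hg hgG hη hs
  exact ⟨τ, Finset.mem_biUnion.2 ⟨(e, c), hmem, hτ⟩,
    h2.trans (mul_le_mul_of_nonneg_right (hr _ hmem) (v.nonneg _))⟩

/-- the relation is symmetric -/
lemma isog_symm {N : ℕ} (hN : 0 < N) {x y : ℂ} (h : CyclicIsog N x y) : CyclicIsog N y x := by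
  obtain ⟨τ, τ', h1, rfl, rfl⟩ := h
  refine ⟨ModularGroup.S • τ', ModularGroup.S • τ, ?_, (jInv_SL _ _).symm, (jInv_SL _ _).symm⟩
  rw [UpperHalfPlane.modular_S_smul, UpperHalfPlane.modular_S_smul]
  have h2 : (τ : ℂ) ≠ 0 := τ.ne_zero
  have h3 : (N : ℂ) ≠ 0 := by exact_mod_cast hN.ne'
  change (-(τ : ℂ))⁻¹ = (N : ℂ) * (-(τ' : ℂ))⁻¹
  rw [h1]
  field_simp

/-- the exponents of a monomial of degree zero and of absolute value one -/
lemma exists_exp {K : ℕ} {a b c : ℝ} (ha : 0 < a) (hb : 0 < b) (hc : 0 < c)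
    (h1 : ∃ al be : ℕ, be < al ∧ al ≤ K ∧ a ^ be = b ^ al) (h2 : ∃ al be : ℕ, be < al ∧ al ≤ K ∧ a ^ be = c ^ al) :
    ∃ r s t : ℤ, t ≠ 0 ∧ r + s + t = 0 ∧ |r| ≤ (K : ℤ) ^ 2 ∧ |s| ≤ (K : ℤ) ^ 2 ∧ |t| ≤ (K : ℤ) ^ 2 ∧
      a ^ r * b ^ s * c ^ t = 1 := by
  obtain ⟨al, be, h3, h4, h5⟩ := h1
  obtain ⟨al', be', h3', h4', h5'⟩ := h2
  have b0 : (be : ℤ) < al := by exact_mod_cast h3
  have b1 : (be' : ℤ) < al' := by exact_mod_cast h3'
  have b2 : (al : ℤ) ≤ K := by exact_mod_cast h4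
  have b3 : (al' : ℤ) ≤ K := by exact_mod_cast h4'
  have b4 : (0 : ℤ) ≤ be := Int.natCast_nonneg _
  have b5 : (0 : ℤ) ≤ be' := Int.natCast_nonneg _
  set A : ℤ := al * al' with hA
  set B : ℤ := be * al' with hB
  set C : ℤ := be' * al with hC
  have hA0 : 0 < A := mul_pos (by omega) (by omega)
  have hB0 : 0 ≤ B := mul_nonneg b4 (by omega)
  have hC0 : 0 ≤ C := mul_nonneg b5 (by omega)
  have hAK : A ≤ (K : ℤ) ^ 2 := by rw [hA, pow_two]; exact mul_le_mul b2 b3 (by omega) (by omega)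
  have hBK : B ≤ (K : ℤ) ^ 2 := by
    rw [hB, pow_two]; exact mul_le_mul (by omega) b3 (by omega) (by omega)
  have hCK : C ≤ (K : ℤ) ^ 2 := by
    rw [hC, pow_two]; exact mul_le_mul (by omega) b2 (by omega) (by omega)
  have hBA : B < A := by rw [hA, hB]; exact mul_lt_mul_of_pos_right b0 (by omega)
  have e1 : a ^ B = b ^ A := by
    rw [hA, hB, zpow_mul, zpow_mul, zpow_natCast a, zpow_natCast b, h5]
  have e2 : a ^ C = c ^ A := by
    rw [hA, hC, mul_comm (al : ℤ), zpow_mul, zpow_mul, zpow_natCast a, zpow_natCast c, h5']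
  refine ⟨B - C, C - A, A - B, by omega, by ring, abs_le.2 ⟨by omega, by omega⟩,
    abs_le.2 ⟨by omega, by omega⟩, abs_le.2 ⟨by omega, by omega⟩, ?_⟩
  have h0 : 0 < a ^ (B - C) * b ^ (C - A) * c ^ (A - B) :=
    mul_pos (mul_pos (zpow_pos ha _) (zpow_pos hb _)) (zpow_pos hc _)
  have h6 : (a ^ (B - C) * b ^ (C - A) * c ^ (A - B)) ^ A = 1 := by
    rw [mul_zpow, mul_zpow, ← zpow_mul, ← zpow_mul, ← zpow_mul, mul_comm (C - A), mul_comm (A - B), zpow_mul b,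
      zpow_mul c, ← e1, ← e2, ← zpow_mul, ← zpow_mul, ← zpow_add₀ ha.ne', ← zpow_add₀ ha.ne',
      show (B - C) * A + B * (C - A) + C * (A - B) = 0 by ring, zpow_zero]
  lift A to ℕ using hA0.le with A'
  rw [zpow_natCast] at h6
  exact (pow_eq_one_iff_of_nonneg h0.le (by omega)).1 h6

/-- **three isogenous coordinates of different absolute values** -/
theorem unif3 (hv : IsNonarchimedean v) {p : ℕ} (hp : p.Prime) (hvp : v (p : ℂ) < 1) {K : ℕ} (hK : 0 < K)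
    {V : Set (Fin n → ℂ)} (hloc : Pool.Agent.Helper20.PL.LocalPol v p (K ^ 2) V)
    (htrop : ∀ z ∈ V, ∀ e f, e ≠ f → 1 ≤ v (z f) → v (z f) < v (z e) →
      ∃ al be : ℕ, be < al ∧ al ≤ K ∧ v (z e) ^ be = v (z f) ^ al)
    (h3 : Local3 v p (K ^ 2) V) {m : ℕ} (hm : 1 ≤ m) :
    ∃ B : ℕ, ∀ lam : ℂ, v ((p : ℂ) ^ m * lam) = 1 → v ((p : ℂ) ^ m * lam - 1) ≤ v (p : ℂ) → ∀ z ∈ V, ∀ i j l : Fin n,
      1 ≤ v (z l) → v (z l) < v (z j) → v (z j) < v (z i) →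
      (∃ N, 0 < N ∧ CyclicIsog N (lam * z i + 744) (lam * z j + 744)) →
      (∃ N, 0 < N ∧ CyclicIsog N (lam * z i + 744) (lam * z l + 744)) →
      (∃ N, 0 < N ∧ CyclicIsog N (lam * z j + 744) (lam * z l + 744)) →
      ∀ N, CyclicIsog N (lam * z i + 744) (lam * z j + 744) → N ≤ B := by
  classical
  have hp0 : 0 < v (p : ℂ) := v.pos (by exact_mod_cast hp.ne_zero)
  have hpne : (p : ℂ) ≠ 0 := by exact_mod_cast hp.ne_zero
  have hK2 : 0 < K ^ 2 := pow_pos hK 2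
  obtain ⟨G, hG⟩ := Pool.Agent.Helper20.PL.torsionP (M := 1) one_pos hv hp hvp hK2 hloc
  obtain ⟨T, ρ, hρ0, hρ1, hT⟩ := disc_all hv hp hvp h3 G
  set ρ' := max ρ (v (p : ℂ)) with hρ'
  have hρ'1 : ρ' < 1 := max_lt hρ1 hvp
  set F : Finset ℂ := (T.filter fun τ => 1 < v τ).image fun τ => τ / (p : ℂ) ^ m with hF
  have hpm0 : 0 < v (p : ℂ) ^ m := pow_pos hp0 m
  have hpm : v (p : ℂ) ^ m ≤ v (p : ℂ) := by
    calc v (p : ℂ) ^ m ≤ v (p : ℂ) ^ 1 := pow_le_pow_of_le_one hp0.le hvp.le hm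
      _ = v (p : ℂ) := pow_one _
  have hpm1 : v (p : ℂ) ^ m < 1 := hpm.trans_lt hvp
  have hFv : ∀ τ : ℂ, 1 < v τ → (v (p : ℂ))⁻¹ < v (τ / (p : ℂ) ^ m) := by
    intro τ hτ
    rw [map_div₀, map_pow, inv_lt_iff_one_lt_mul₀ hp0, div_mul_eq_mul_div, one_lt_div hpm0]
    exact hpm.trans_lt ((lt_mul_iff_one_lt_left hp0).2 hτ)
  have hFone : ∀ c ∈ F, 1 < v c := by
    intro c hc
    obtain ⟨τ, hτ, rfl⟩ := Finset.mem_image.1 hc
    exact ((one_lt_inv₀ hp0).2 hvp).trans (hFv τ (Finset.mem_filter.1 hτ).2)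
  obtain ⟨B, hB⟩ := (isogenyBounded_discs hv hρ'1 hFone).bounded
  refine ⟨B, fun lam hl1 hl2 z hz i j l hl hlj hji hij hil hjl N hN => ?_⟩
  have h744 : v (744 : ℂ) ≤ 1 := by exact_mod_cast Helper20.DL.v_int_le hv 744
  have hlam : v lam * v (p : ℂ) ^ m = 1 := by rwa [map_mul, map_pow, mul_comm] at hl1
  have hlam1 : v lam = (v (p : ℂ) ^ m)⁻¹ := eq_inv_of_mul_eq_one_left hlam
  have hlam0 : lam ≠ 0 := by
    rintro rfl
    rw [map_zero, zero_mul] at hlam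
    exact zero_ne_one hlam
  have hj1 : 1 < v (z j) := hl.trans_lt hlj
  have hi1 : 1 < v (z i) := hj1.trans hji
  have hne : i ≠ j ∧ i ≠ l ∧ j ≠ l := by
    refine ⟨?_, ?_, ?_⟩
    · rintro rfl; exact lt_irrefl _ hji
    · rintro rfl; exact lt_irrefl _ (hlj.trans hji)
    · rintro rfl; exact lt_irrefl _ hlj
  obtain ⟨n1, n2, n3⟩ := hne
  have z0 : ∀ t, 1 ≤ v (z t) → z t ≠ 0 := by
    intro t ht h
    rw [h, map_zero] at ht
    exact absurd ht (not_le.2 zero_lt_one)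
  -- the absolute values of the coordinates
  have hx : ∀ t, 1 ≤ v (z t) → v (lam * z t + 744) = v lam * v (z t) := by
    intro t ht
    have h1 : v (744 : ℂ) < v (lam * z t) := by
      rw [map_mul, hlam1]
      refine h744.trans_lt (lt_of_lt_of_le ((one_lt_inv₀ hpm0).2 hpm1) ?_)
      exact le_mul_of_one_le_right (inv_nonneg.2 hpm0.le) ht
    rw [v_add_eq hv h1, map_mul]
  -- the exponents
  obtain ⟨r, s, t, ht0, hrst, hr, hs, ht, hprod⟩ := exists_exp (K := K) (a := v (z i)) (b := v (z j)) (c := v (z l))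
    (zero_lt_one.trans hi1) (zero_lt_one.trans hj1) (zero_lt_one.trans_le hl)
    (htrop z hz i j n1 hj1.le hji) (htrop z hz i l n2 hl (hlj.trans hji))
  set c : Fin n → ℤ := cvec i j l r s t with hc
  have hc0 : c ≠ 0 := by
    intro h
    have h1 := congrFun h l
    rw [hc, cvec, if_neg n2.symm, if_neg n3.symm, if_pos rfl] at h1
    exact ht0 h1
  have hcs : ∑ u, c u = 0 := by rw [hc, sum_cvec n1 n2 n3]; exact hrst
  have hcK : ∀ u, |c u| ≤ ((K ^ 2 : ℕ) : ℤ) := by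
    intro u
    rw [Nat.cast_pow, hc, cvec]
    split_ifs
    · exact hr
    · exact hs
    · exact ht
    · rw [abs_zero]; positivity
  have hcz : ∀ u, z u = 0 → c u = 0 := by
    intro u hu
    have h1 : u ≠ i := fun h => z0 i hi1.le (h ▸ hu)
    have h2 : u ≠ j := fun h => z0 j hj1.le (h ▸ hu)
    have h3 : u ≠ l := fun h => z0 l hl (h ▸ hu)
    rw [hc, cvec, if_neg h1, if_neg h2, if_neg h3]
  have hzc : ∏ u, z u ^ c u = z i ^ r * z j ^ s * z l ^ t :=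
    prod_cvec n1 n2 n3 (fun u k => z u ^ k) (fun _ => zpow_zero _) r s t
  -- the monomial is near a root of unity
  have hRN : RN v (v (p : ℂ) ^ 2) (∏ u, z u ^ c u) := by
    set y : Fin 3 → ℂ := ![z i, z j, z l] with hy
    have hy1 : ∀ q, 1 ≤ v (y q) := by
      intro q
      fin_cases q
      · exact hi1.le
      · exact hj1.le
      · exact hl
    have hvx : ∀ q, v (lam * y q + 744) = v lam * v (y q) := by
      intro q
      fin_cases q
      · exact hx i hi1.le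
      · exact hx j hj1.le
      · exact hx l hl
    have h1 := sharp_monomial hv hp hvp (x := fun q => lam * y q + 744) (c := ![r, s, t])
      (fun q => by
        rw [hvx, hlam1]
        refine le_trans ?_ (le_mul_of_one_le_right (inv_nonneg.2 hpm0.le) (hy1 q))
        exact inv_anti₀ hpm0 hpm)
      (fun a b hab => by
        obtain ⟨N1, a1, a2⟩ := hij
        obtain ⟨N2, b1, b2⟩ := hil
        obtain ⟨N3, c1, c2⟩ := hjl
        fin_cases a <;> fin_cases b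
        · exact absurd rfl hab
        · exact ⟨N1, a1, a2⟩
        · exact ⟨N2, b1, b2⟩
        · exact ⟨N1, a1, isog_symm a1 a2⟩
        · exact absurd rfl hab
        · exact ⟨N3, c1, c2⟩
        · exact ⟨N2, b1, isog_symm b1 b2⟩
        · exact ⟨N3, c1, isog_symm c1 c2⟩
        · exact absurd rfl hab)
      (by
        have e1 : ∀ q, v (lam * y q + 744) ^ (![r, s, t] : Fin 3 → ℤ) q =
            v lam ^ (![r, s, t] : Fin 3 → ℤ) q * v (y q) ^ (![r, s, t] : Fin 3 → ℤ) q := fun q => by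
          rw [hvx, mul_zpow]
        rw [Finset.prod_congr rfl fun q _ => e1 q, Finset.prod_mul_distrib, Fin.prod_univ_three,
          Fin.prod_univ_three]
        change v lam ^ r * v lam ^ s * v lam ^ t * (v (z i) ^ r * v (z j) ^ s * v (z l) ^ t) = 1
        have h2 : v lam ≠ 0 := (AbsoluteValue.ne_zero_iff v).2 hlam0
        rw [hprod, mul_one, ← zpow_add₀ h2, ← zpow_add₀ h2, hrst, zpow_zero])
    have e2 : ∏ q, ((fun q => lam * y q + 744) q - 744) ^ (![r, s, t] : Fin 3 → ℤ) q = ∏ u, z u ^ c u := by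
      rw [hzc, Fin.prod_univ_three]
      change (lam * z i + 744 - 744) ^ r * (lam * z j + 744 - 744) ^ s * (lam * z l + 744 - 744) ^ t = _
      rw [add_sub_cancel_right, add_sub_cancel_right, add_sub_cancel_right, mul_zpow, mul_zpow, mul_zpow]
      have h3 : lam ^ r * lam ^ s * lam ^ t = 1 := by
        rw [← zpow_add₀ hlam0, ← zpow_add₀ hlam0, hrst, zpow_zero]
      calc _ = (lam ^ r * lam ^ s * lam ^ t) * (z i ^ r * z j ^ s * z l ^ t) := by ring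
        _ = _ := by rw [h3, one_mul]
    rw [e2] at h1
    exact h1
  obtain ⟨η, g₁, hg₁, hη₁, hnear⟩ := hRN
  have hηfin : 0 < orderOf η := (isOfFinOrder_iff_pow_eq_one.2 ⟨g₁, hg₁, hη₁⟩).orderOf_pos
  have hηG : orderOf η ≤ G := by
    obtain ⟨N1, -, a2⟩ := hij
    refine hG m (fun _ => lam) (fun _ => 744) ⟨⟨hm, fun _ => hl1, fun _ => ?_⟩, fun _ => 1, fun _ => one_pow _,
      fun _ => hl2⟩ z hz i j N1 n1 hj1.le hji (Or.inl a2) c hc0 hcs hcK hcz η (orderOf η) hηfin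
      (IsPrimitiveRoot.orderOf η) ?_
    · rw [map_mul, map_pow]
      exact (mul_le_of_le_one_right hpm0.le h744).trans hpm
    · have h1 : ∏ u, lam ^ (-c u) = 1 := by
        rw [Pool.Agent.Helper20.PL.prod_zpow_const hlam0 (fun u => -c u) univ, Finset.sum_neg_distrib, hcs, neg_zero,
          zpow_zero]
      rw [h1, one_mul]
      refine hnear.trans ?_
      rw [pow_two]
      exact mul_le_of_le_one_left hp0.le hvp.le
  -- the coordinates are in the discs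
  have hdisc : ∀ e, 1 < v (z e) → lam * z e + 744 ∈ discs v F ρ' := by
    intro e he
    obtain ⟨τ, hτ, h1⟩ := hT e c hc0 hcs hcK z hz he hcz η (orderOf η) hηfin hηG (pow_orderOf_eq_one η) hnear
    have hτ0 : 0 < v τ := by
      by_contra hcon
      have h2 : v τ = 0 := le_antisymm (not_lt.1 hcon) (v.nonneg _)
      have h3 : τ = 0 := (AbsoluteValue.eq_zero v).1 h2
      rw [h3, sub_zero, map_zero, mul_zero] at h1
      exact absurd he (not_lt.2 (h1.trans zero_le_one))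
    have h2 : v (z e) = v τ := v_eq_of_sub_lt hv (h1.trans_lt (by nlinarith))
    have h3 : 1 < v τ := h2 ▸ he
    refine ⟨τ / (p : ℂ) ^ m, Finset.mem_image_of_mem _ (Finset.mem_filter.2 ⟨hτ, h3⟩), ?_⟩
    have hpmne : (p : ℂ) ^ m ≠ 0 := pow_ne_zero _ hpne
    have e1 : lam * z e + 744 - τ / (p : ℂ) ^ m =
        lam * (z e - τ) + (((p : ℂ) ^ m * lam - 1) * (τ / (p : ℂ) ^ m) + 744) := by
      field_simp
      ring
    have h4 := hFv τ h3
    rw [e1]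
    refine (hv _ _).trans (max_le ?_ ((hv _ _).trans (max_le ?_ ?_)))
    · rw [map_mul, hlam1, map_div₀, map_pow]
      calc (v (p : ℂ) ^ m)⁻¹ * v (z e - τ) ≤ (v (p : ℂ) ^ m)⁻¹ * (ρ * v τ) :=
            mul_le_mul_of_nonneg_left h1 (inv_nonneg.2 hpm0.le)
        _ = ρ * (v τ / v (p : ℂ) ^ m) := by field_simp
        _ ≤ ρ' * (v τ / v (p : ℂ) ^ m) :=
            mul_le_mul_of_nonneg_right (le_max_left _ _) (div_nonneg hτ0.le hpm0.le)
    · rw [map_mul]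
      exact mul_le_mul_of_nonneg_right (hl2.trans (le_max_right _ _)) (v.nonneg _)
    · refine h744.trans ?_
      calc (1 : ℝ) = v (p : ℂ) * (v (p : ℂ))⁻¹ := (mul_inv_cancel₀ hp0.ne').symm
        _ ≤ ρ' * v (τ / (p : ℂ) ^ m) :=
            mul_le_mul (le_max_right _ _) h4.le (inv_nonneg.2 hp0.le) (hρ0.trans (le_max_left _ _))
  exact hB _ (hdisc i hi1) _ (hdisc j hj1) N hN

end Pool.Agent.Helper69.Y13
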