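import Pool.Agent.Helper69.Y13.Defs
import Pool.Agent.Helper20.DL.Near

/-! # Bounded orders: finitely many values of the local parameter -/

open Finset

namespace Pool.Agent.Helper69.Y13
open Pool.Agent.Helper11.ZP Pool.Agent.Helper11.ZU Pool.Agent.Helper20.ZD Pool.Agent.Helper20.DL
  Pool.Agent.Helper11.LC

variable {v : AbsoluteValue ℂ ℝ}

/-- a product of factors near one -/
lemma near_multiset (hv : IsNonarchimedean v) {δ : ℝ} (hδ0 : 0 ≤ δ) (hδ : δ < 1) (S : Multiset ℂ)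
    (h : ∀ x ∈ S, v (x - 1) ≤ δ) : v (S.prod - 1) ≤ δ := by
  induction S using Multiset.induction_on with
  | empty => rw [Multiset.prod_zero, sub_self, map_zero]; exact hδ0
  | cons a S ih =>
    rw [Multiset.prod_cons]
    exact near_mul hv hδ (h a (Multiset.mem_cons_self a S)) (ih fun x hx => h x (Multiset.mem_cons_of_mem hx))

/-- the values of a polynomial at two points which are close relative to the distances to the roots -/
lemma eval_near (hv : IsNonarchimedean v) {P : Polynomial ℂ} {s η : ℂ} {δ : ℝ} (hδ0 : 0 ≤ δ) (hδ : δ < 1)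
    (h0 : ∀ θ ∈ P.roots, η ≠ θ) (h : ∀ θ ∈ P.roots, v (s - η) ≤ δ * v (η - θ)) :
    v (P.eval s - P.eval η) ≤ δ * v (P.eval η) := by
  have hsp : P.Splits := IsAlgClosed.splits P
  have h1 : P.eval s = P.eval η * (P.roots.map fun θ => (s - θ) / (η - θ)).prod := by
    rw [hsp.eval_eq_prod_roots s, hsp.eval_eq_prod_roots η, mul_assoc, ← Multiset.prod_map_mul]
    congr 2
    refine Multiset.map_congr rfl fun θ hθ => ?_
    have : η - θ ≠ 0 := sub_ne_zero.2 (h0 θ hθ)
    field_simp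
  have h2 : v ((P.roots.map fun θ => (s - θ) / (η - θ)).prod - 1) ≤ δ := by
    refine near_multiset hv hδ0 hδ _ fun x hx => ?_
    obtain ⟨θ, hθ, rfl⟩ := Multiset.mem_map.1 hx
    have h3 : η - θ ≠ 0 := sub_ne_zero.2 (h0 θ hθ)
    have h4 : (s - θ) / (η - θ) - 1 = (s - η) / (η - θ) := by field_simp; ring
    rw [h4, map_div₀, div_le_iff₀ (v.pos h3)]
    exact h θ hθ
  rw [h1, show P.eval η * (P.roots.map fun θ => (s - θ) / (η - θ)).prod - P.eval η =
    ((P.roots.map fun θ => (s - θ) / (η - θ)).prod - 1) * P.eval η by ring, map_mul]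
  exact mul_le_mul_of_nonneg_right h2 (v.nonneg _)

/-- a polynomial whose value is small compared with its largest term has a root which is multiplicatively near -/
lemma root_scaled (hv : IsNonarchimedean v) {P : Polynomial ℂ} {D : ℕ} (hdeg : P.natDegree ≤ D) {w : ℂ}
    (hw : w ≠ 0) {j : ℕ} (hj : P.coeff j ≠ 0) {δ : ℝ} (hδ : δ < 1)
    (h : v (P.eval w) ≤ δ * v (P.coeff j * w ^ j)) :
    ∃ w' ∈ P.roots, w' ≠ 0 ∧ v (w / w' - 1) ^ D ≤ δ := by
  set c : ℂ := P.coeff j * w ^ j with hc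
  have hc0 : c ≠ 0 := mul_ne_zero hj (pow_ne_zero _ hw)
  set Q : Polynomial ℂ := Polynomial.C c⁻¹ * P.comp (Polynomial.C w * Polynomial.X) with hQ
  have hQc : ∀ i, Q.coeff i = c⁻¹ * (P.coeff i * w ^ i) := by
    intro i
    rw [hQ, Polynomial.coeff_C_mul, Polynomial.comp_C_mul_X_coeff]
  have hQe : ∀ x, Q.eval x = c⁻¹ * P.eval (w * x) := by
    intro x
    rw [hQ, Polynomial.eval_mul, Polynomial.eval_C, Polynomial.eval_comp, Polynomial.eval_mul,
      Polynomial.eval_C, Polynomial.eval_X]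
  have hQd : Q.natDegree ≤ D := by
    rw [Polynomial.natDegree_le_iff_coeff_eq_zero]
    intro N hN
    rw [hQc, Polynomial.coeff_eq_zero_of_natDegree_lt (hdeg.trans_lt hN), zero_mul, mul_zero]
  obtain ⟨ξ, hξ, h1, h2⟩ := root_gauss hv hQd (j := j)
    (by rw [hQc, ← hc, inv_mul_cancel₀ hc0, map_one]) (x := 1) (map_one v).le (δ := δ) (by
      rw [hQe, mul_one, map_mul, map_inv₀, inv_mul_le_iff₀ (v.pos hc0), mul_comm]
      exact h) hδ
  have hξ1 : v ξ = 1 := v_one_of_near hv (by rw [v_sub_comm]; exact h2)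
  have hξ0 : ξ ≠ 0 := by
    rintro rfl
    rw [map_zero] at hξ1
    exact zero_ne_one hξ1
  have hP0 : P ≠ 0 := by
    rintro rfl
    exact hj (Polynomial.coeff_zero j)
  refine ⟨w * ξ, ?_, mul_ne_zero hw hξ0, ?_⟩
  · rw [Polynomial.mem_roots hP0, Polynomial.IsRoot]
    have h3 := Polynomial.isRoot_of_mem_roots hξ
    rw [Polynomial.IsRoot, hQe] at h3
    exact (mul_eq_zero.1 h3).resolve_left (inv_ne_zero hc0)
  · have h3 : w / (w * ξ) - 1 = (1 - ξ) / ξ := by field_simp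
    rw [h3, map_div₀, hξ1, div_one]
    exact h1

/-- a lower bound for the value of a polynomial of Gauss norm one -/
lemma eval_lower (hv : IsNonarchimedean v) {P : Polynomial ℂ} {D : ℕ} (hdeg : P.natDegree ≤ D) {j : ℕ}
    (hj : v (P.coeff j) = 1) {x : ℂ} (hx : v x ≤ 1) {c : ℝ} (hc0 : 0 ≤ c) (hc1 : c ≤ 1)
    (h : ∀ θ ∈ P.roots, v (x - θ) < 1 → c ≤ v (x - θ)) : c ^ D ≤ v (P.eval x) := by
  by_contra hcon
  push Not at hcon
  obtain ⟨θ, hθ, h1, h2⟩ := root_gauss hv hdeg hj hx le_rfl (hcon.trans_le (pow_le_one₀ hc0 hc1))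
  exact absurd ((pow_le_pow_left₀ hc0 (h θ hθ h2) D).trans h1) (not_le.2 hcon)

/-- the coefficient of `X ^ i` as a polynomial in `Y` -/
noncomputable def rowP (H : MvPolynomial (Fin 2) ℤ) (i : ℕ) : Polynomial ℂ :=
  ∑ m ∈ H.support with m 0 = i, Polynomial.monomial (m 1) ((H.coeff m : ℤ) : ℂ)

lemma rowP_eval (H : MvPolynomial (Fin 2) ℤ) (i : ℕ) (y : ℂ) : (rowP H i).eval y = (inX H y).coeff i := by
  rw [rowP, Polynomial.eval_finsetSum, inX_coeff]
  exact sum_congr rfl fun m _ => by rw [Polynomial.eval_monomial]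

lemma rowP_natDegree {H : MvPolynomial (Fin 2) ℤ} {D : ℕ} (hD : ∀ m ∈ H.support, m 1 ≤ D) (i : ℕ) :
    (rowP H i).natDegree ≤ D :=
  Polynomial.natDegree_sum_le_of_forall_le _ _ fun m hm =>
    (Polynomial.natDegree_monomial_le _).trans (hD m (Finset.mem_filter.1 hm).1)

lemma rowP_coeff (H : MvPolynomial (Fin 2) ℤ) (m : Fin 2 →₀ ℕ) :
    (rowP H (m 0)).coeff (m 1) = ((H.coeff m : ℤ) : ℂ) := by
  classical
  rw [rowP, Polynomial.finsetSum_coeff]
  have h1 : ∀ m' ∈ H.support.filter (fun m' => m' 0 = m 0), m' ≠ m →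
      (Polynomial.monomial (m' 1) ((H.coeff m' : ℤ) : ℂ)).coeff (m 1) = 0 := by
    intro m' hm' hne
    rw [Polynomial.coeff_monomial, if_neg]
    intro h2
    apply hne
    ext i
    fin_cases i
    · exact (Finset.mem_filter.1 hm').2
    · exact h2
  by_cases hm : m ∈ H.support
  · rw [Finset.sum_eq_single_of_mem m (Finset.mem_filter (p := fun m' => m' 0 = m 0).2 ⟨hm, rfl⟩) h1,
      Polynomial.coeff_monomial, if_pos rfl]
  · rw [Finset.sum_eq_zero fun m' hm' => h1 m' hm' ?_]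
    · rw [MvPolynomial.notMem_support_iff.1 hm, Int.cast_zero]
    · rintro rfl
      exact hm (Finset.mem_filter.1 hm').1

/-- the value minus the constant coefficient -/
lemma eval_sub_coeff_zero (hv : IsNonarchimedean v) {P : Polynomial ℂ} (hP : ∀ i, v (P.coeff i) ≤ 1) {w : ℂ}
    (hw : v w ≤ 1) : v (P.eval w - P.coeff 0) ≤ v w := by
  have h1 : P.eval w - P.coeff 0 = w * (P.divX).eval w := by
    conv_lhs => rw [← Polynomial.divX_mul_X_add P]
    rw [Polynomial.eval_add, Polynomial.eval_mul, Polynomial.eval_X, Polynomial.eval_C, Polynomial.coeff_add,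
      Polynomial.coeff_mul_X_zero, Polynomial.coeff_C_zero]
    ring
  rw [h1, map_mul]
  refine mul_le_of_le_one_right (v.nonneg _) ?_
  rw [Polynomial.eval_eq_sum_range]
  refine val_sum_le hv _ _ zero_le_one fun i _ => ?_
  rw [map_mul, map_pow, Polynomial.coeff_divX]
  exact mul_le_one₀ (hP _) (pow_nonneg (v.nonneg _) _) (pow_le_one₀ (v.nonneg _) hw)

/-- **bounded orders**: the local parameter is multiplicatively near a finite set -/
theorem fin_w (hv : IsNonarchimedean v) {p : ℕ} (hp : p.Prime) (hvp : v (p : ℂ) < 1)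
    {H : MvPolynomial (Fin 2) ℤ} {D : ℕ} (hD : ∀ m ∈ H.support, m 0 ≤ D ∧ m 1 ≤ D)
    (hbot : ∃ m : Fin 2 →₀ ℕ, m 0 = 0 ∧ v ((H.coeff m : ℤ) : ℂ) = 1) (hsep : SepRoots v H)
    (hW : NonWief v p H) (G : ℕ) :
    ∃ T : Finset ℂ, (∀ τ ∈ T, τ ≠ 0) ∧ ∀ (w s η : ℂ) (g : ℕ), 0 < g → g ≤ G → η ^ g = 1 → w ≠ 0 → v w < 1 →
      v (ev H w s) ≤ v (p : ℂ) ^ (D + 1) → v (s - η) ≤ v (p : ℂ) ^ 2 → ∃ τ ∈ T, v (w / τ - 1) ^ D ≤ v (p : ℂ) := by
  classical
  have hp0 : 0 < v (p : ℂ) := v.pos (by exact_mod_cast hp.ne_zero)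
  refine ⟨((Finset.Icc 1 G).biUnion fun g => (Polynomial.nthRoots g (1 : ℂ)).toFinset).biUnion fun η =>
    (inX H η).roots.toFinset.erase 0, ?_, ?_⟩
  · intro τ hτ
    obtain ⟨η, -, hτ⟩ := Finset.mem_biUnion.1 hτ
    exact (Finset.mem_erase.1 hτ).1
  intro w s η g hg hgG hη hw0 hw hev hs
  have hη1 : v η = 1 := val_root hg hη
  have hp2 : v (p : ℂ) ^ 2 < 1 := pow_lt_one₀ hp0.le hvp two_ne_zero
  have hs1 : v s = 1 := by
    rw [← hη1]
    exact v_eq_of_sub_lt hv (by rw [hη1]; exact hs.trans_lt hp2)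
  -- a root of the constant coefficient
  have hint : ∀ i, v ((inX H s).coeff i) ≤ 1 := fun i => by
    rw [inX_coeff]
    refine val_sum_le hv _ _ zero_le_one fun m _ => ?_
    rw [map_mul, map_pow, hs1, one_pow, mul_one]
    exact Helper20.DL.v_int_le hv _
  obtain ⟨m₀, hm₀, hm₁⟩ := hbot
  have hlead : v ((rowP H 0).coeff (m₀ 1)) = 1 := by
    have h1 := rowP_coeff H m₀
    rw [hm₀] at h1
    rw [h1, hm₁]
  have hdeg0 : ∀ i, (rowP H i).natDegree ≤ D := rowP_natDegree fun m hm => (hD m hm).2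
  have hsmall : v ((rowP H 0).eval s) < 1 := by
    rw [rowP_eval]
    have h1 := eval_sub_coeff_zero hv hint hw.le
    rw [inX_eval] at h1
    have h2 : (inX H s).coeff 0 = ev H w s - (ev H w s - (inX H s).coeff 0) := by ring
    rw [h2]
    refine (v_sub_le hv _ _).trans_lt (max_lt (hev.trans_lt (pow_lt_one₀ hp0.le hvp (by omega))) (h1.trans_lt hw))
  obtain ⟨κ, hκ, -, hκs⟩ := root_gauss hv (hdeg0 0) hlead hs1.le le_rfl hsmall
  have hκ0 : ev H 0 κ = 0 := by
    have h1 := Polynomial.isRoot_of_mem_roots hκ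
    rw [Polynomial.IsRoot, rowP_eval] at h1
    rw [← inX_eval, ← Polynomial.coeff_zero_eq_eval_zero, h1]
  have hκ1 : v κ = 1 := by
    rw [← hs1]
    exact v_eq_of_sub_lt hv (by rw [v_sub_comm, hs1]; exact hκs)
  -- the distances to the roots of the coefficients
  have hdist : ∀ i, ∀ θ ∈ (rowP H i).roots, v (p : ℂ) ≤ v (η - θ) := by
    intro i θ hθ
    by_cases h1 : v (η - θ) < 1
    · have hrow : ∃ m ∈ H.support, m 0 = i := by
        by_contra hcon
        push Not at hcon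
        have h2 : rowP H i = 0 := by
          rw [rowP, Finset.sum_eq_zero]
          intro m hm
          exact absurd (Finset.mem_filter.1 hm).2 (hcon m (Finset.mem_filter.1 hm).1)
        rw [h2, Polynomial.roots_zero] at hθ
        exact absurd hθ (Multiset.notMem_zero θ)
      have h2 : (inX H θ).coeff i = 0 := by
        rw [← rowP_eval]
        exact Polynomial.isRoot_of_mem_roots hθ
      have h3 : v (θ - κ) < 1 := by
        rw [show θ - κ = (θ - η) - ((s - η) - (s - κ)) by ring]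
        refine (v_sub_le hv _ _).trans_lt (max_lt (by rw [v_sub_comm]; exact h1) ?_)
        exact (v_sub_le hv _ _).trans_lt (max_lt (hs.trans_lt hp2) hκs)
      have h4 : θ = κ := hsep κ θ i hκ0 hκ1 hrow h2 h3
      rw [h4, v_sub_comm]
      exact hW κ η hκ0 hκ1 ⟨g, hg, hη⟩
    · exact hvp.le.trans (not_lt.1 h1)
  have hrow : ∀ i, v ((inX H s).coeff i - (inX H η).coeff i) ≤ v (p : ℂ) * v ((inX H η).coeff i) := by
    intro i
    rw [← rowP_eval, ← rowP_eval]
    refine eval_near hv hp0.le hvp (fun θ hθ h => ?_) fun θ hθ => ?_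
    · have h1 := hdist i θ hθ
      rw [h, sub_self, map_zero] at h1
      exact absurd hp0 (not_lt.2 h1)
    · refine hs.trans ?_
      rw [pow_two]
      exact mul_le_mul_of_nonneg_left (hdist i θ hθ) hp0.le
  -- the largest term
  have hdegX : ∀ y, (inX H y).natDegree ≤ D := inX_natDegree fun m hm => (hD m hm).1
  obtain ⟨j, hj, hmax⟩ := Finset.exists_max_image (Finset.range (D + 1))
    (fun i => v ((inX H η).coeff i * w ^ i)) ⟨0, Finset.mem_range.2 (Nat.succ_pos D)⟩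
  set M := v ((inX H η).coeff j * w ^ j) with hM
  have hMp : v (p : ℂ) ^ D ≤ M := by
    refine le_trans ?_ (hmax 0 (Finset.mem_range.2 (Nat.succ_pos D)))
    rw [pow_zero, mul_one, ← rowP_eval]
    exact eval_lower hv (hdeg0 0) hlead hη1.le hp0.le hvp.le fun θ hθ _ => hdist 0 θ hθ
  have hM0 : 0 < M := (pow_pos hp0 D).trans_le hMp
  have hjne : (inX H η).coeff j ≠ 0 := by
    intro h
    rw [hM, h, zero_mul, map_zero] at hM0
    exact lt_irrefl _ hM0
  have hev2 : v ((inX H η).eval w) ≤ v (p : ℂ) * M := by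
    have h1 : (inX H η).eval w = ev H w s -
        ∑ i ∈ Finset.range (D + 1), ((inX H s).coeff i - (inX H η).coeff i) * w ^ i := by
      rw [← inX_eval, Polynomial.eval_eq_sum_range' (Nat.lt_succ_of_le (hdegX s)),
        Polynomial.eval_eq_sum_range' (Nat.lt_succ_of_le (hdegX η)), ← Finset.sum_sub_distrib]
      exact sum_congr rfl fun i _ => by ring
    rw [h1]
    refine (v_sub_le hv _ _).trans (max_le ?_ ?_)
    · refine hev.trans ?_
      rw [pow_succ, mul_comm]
      exact mul_le_mul_of_nonneg_left hMp hp0.le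
    · refine val_sum_le hv _ _ (mul_nonneg hp0.le hM0.le) fun i hi => ?_
      calc v (((inX H s).coeff i - (inX H η).coeff i) * w ^ i)
          = v ((inX H s).coeff i - (inX H η).coeff i) * v (w ^ i) := map_mul _ _ _
        _ ≤ v (p : ℂ) * v ((inX H η).coeff i) * v (w ^ i) := mul_le_mul_of_nonneg_right (hrow i) (v.nonneg _)
        _ = v (p : ℂ) * v ((inX H η).coeff i * w ^ i) := by rw [map_mul, mul_assoc]
        _ ≤ v (p : ℂ) * M := mul_le_mul_of_nonneg_left (hmax i hi) hp0.le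
  obtain ⟨τ, hτ, hτ0, h5⟩ := root_scaled hv (hdegX η) hw0 hjne hvp hev2
  refine ⟨τ, ?_, h5⟩
  rw [Finset.mem_biUnion]
  refine ⟨η, ?_, Finset.mem_erase.2 ⟨hτ0, Multiset.mem_toFinset.2 hτ⟩⟩
  rw [Finset.mem_biUnion]
  refine ⟨g, Finset.mem_Icc.2 ⟨hg, hgG⟩, ?_⟩
  rw [Multiset.mem_toFinset, Polynomial.mem_nthRoots hg]
  exact hη

end Pool.Agent.Helper69.Y13
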