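import Pool.Agent.Helper22.DL.Sharp

/-! # Sharp rigidity: isogenous numbers of arbitrary absolute values `> 1` -/

open UpperHalfPlane ModularForm Complex Filter Function
open scoped Real MatrixGroups Topology Manifold

namespace Pool.Agent.Helper69.Y13
open Pool.Agent.Helper11.ZP Pool.Agent.Helper11.ZU Pool.Agent.Helper20.ZT Pool.Agent.Helper20.ZT.Prim
  Pool.Agent.Helper20.ZD Pool.Agent.Helper22.DL

variable {v : AbsoluteValue ℂ ℝ}

section core
variable {m : ℤ} [hm : Fact (0 < m)] {T : Finset (Orb m)} (hT : Stable m T)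
variable {K : Type*} [Field K] [Algebra ℂ K] (O : ValuationSubring K)

include hT in
/-- **sharp rigidity over the orbits in `T`**, arbitrary valuations -/
theorem rig_coreW [IsAlgClosed K] {x y : K} (hx : x ∉ O) (hy : y ∉ O)
    (hrel : ∑ i ∈ Finset.range (T.card + 1), (ppT hT i).eval₂ (ph K) x * y ^ i = 0) :
    ∃ o ∈ T, ∃ t : K, t ≠ 0 ∧ x ^ 2 * ((x - 744) * t ^ m.toNat - 1) ∈ O ∧
      y ^ 2 * ((y - 744) * (ph K (zo m o) * t ^ ko m o) - 1) ∈ O := by
  have hx0 : x ≠ 0 := by rintro rfl; exact hx (zero_mem O)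
  have hy0 : y ≠ 0 := by rintro rfl; exact hy (zero_mem O)
  set s := x⁻¹ with hs
  set w := y⁻¹ with hw
  have hs0 : s ≠ 0 := inv_ne_zero hx0
  have hw0 : w ≠ 0 := inv_ne_zero hy0
  have vs1 : O.valuation s < 1 := by
    rw [hs, map_inv₀]
    exact inv_lt_one_of_one_lt₀ (not_le.1 fun h => hx ((val_mem O).2 h))
  have vw1 : O.valuation w < 1 := by
    rw [hw, map_inv₀]
    exact inv_lt_one_of_one_lt₀ (not_le.1 fun h => hy ((val_mem O).2 h))
  have hm' := mtoNat_pos m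
  set n := m.toNat with hn
  set L := 3 * n ^ 2 + 3 * n with hL
  obtain ⟨q, hq, hqe⟩ := exists_param O (T.card * L) ((val_non O).2 vs1) hs0
  have vq1 := (val_non O).1 hq
  have hqO : q ∈ O := (val_mem O).2 vq1.le
  obtain ⟨e, he, hE⟩ := tr_E O (T.card * L) hqO
  obtain ⟨d, hd, hD⟩ := tr_D O (T.card * L) hqO
  have m24 : (24 : K) ∈ O := by exact_mod_cast mem_ofNat O 24
  have m720 : (720 : K) ∈ O := by exact_mod_cast mem_ofNat O 720
  have m744 : (744 : K) ∈ O := by exact_mod_cast mem_ofNat O 744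
  -- units
  have uE : ∀ r e : K, O.valuation r < 1 → e ∈ O → O.valuation (1 + 720 * r + r ^ 2 * e) = 1 := by
    intro r e hr he
    have hrO : r ∈ O := (val_mem O).2 hr.le
    rw [show 1 + 720 * r + r ^ 2 * e = 1 + r * (720 + r * e) by ring]
    exact unit_of_sub O (lt_one_mul O hr (mem_add O m720 (mem_mul O hrO he)))
  have uD : ∀ r e : K, O.valuation r < 1 → e ∈ O → O.valuation (1 - 24 * r + r ^ 2 * e) = 1 := by
    intro r e hr he
    have hrO : r ∈ O := (val_mem O).2 hr.le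
    rw [show 1 - 24 * r + r ^ 2 * e = 1 + r * (r * e - 24) by ring]
    exact unit_of_sub O (lt_one_mul O hr (mem_sub O (mem_mul O hrO he) m24))
  have vE := uE q e vq1 he
  have vD := uD q d vq1 hd
  rw [hE, hD] at hqe
  have vq : O.valuation q = O.valuation s := by
    have h1 : q * (1 - 24 * q + q ^ 2 * d) = s * (1 + 720 * q + q ^ 2 * e) := by rw [← hqe]; ring
    have h2 := congrArg O.valuation h1
    rwa [val_mul_unit O vD, val_mul_unit O vE] at h2
  have vs0 : O.valuation s ≠ 0 := by rwa [ne_eq, Valuation.zero_iff]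
  have hq0 : q ≠ 0 := by
    intro h
    rw [h, map_zero] at vq
    exact vs0 vq.symm
  obtain ⟨t, ht⟩ := IsAlgClosed.exists_pow_nat_eq q hm'
  have ht0 : t ≠ 0 := by
    rintro rfl
    rw [zero_pow hm'.ne'] at ht
    exact hq0 ht.symm
  have vt1 : O.valuation t < 1 := by
    by_contra hcon
    push Not at hcon
    have h1 : 1 ≤ O.valuation t ^ n := one_le_pow₀ hcon
    rw [← map_pow, ht] at h1
    exact absurd vq1 (not_lt.2 h1)
  have vt0 : 0 < O.valuation t := zero_lt_iff.2 (by rwa [ne_eq, Valuation.zero_iff])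
  have htO : t ∈ O := (val_mem O).2 vt1.le
  have hwO : w ∈ O := (val_mem O).2 vw1.le
  -- the product
  have hLz : (LHT hT (T.card * L + 3)).eval₂ (Polynomial.eval₂RingHom (ph K) t) w⁻¹ = 0 := by
    apply LHT_zero hT (T.card * L + 3) (x := x)
    · rw [ht, hE, hD, hqe, hs]
      field_simp
    · rw [hw, inv_inv]; exact hrel
  have hsm := small_prodT hT O (T.card * L + 3) htO hwO hw0 hLz
  have hmono : ∀ {a b : ℕ}, a ≤ b → O.valuation t ^ b ≤ O.valuation t ^ a := fun h =>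
    pow_le_pow_right_of_le_one' vt1.le h
  have hex : ∃ o ∈ T, O.valuation ((tr dS qexp_disc_mem 1 1 (T.card * L + 3)).eval₂ (ph K)
      (ph K (zo m o) * t ^ ko m o) - (tr eS qexp_Ecube_mem 1 1 (T.card * L + 3)).eval₂ (ph K)
      (ph K (zo m o) * t ^ ko m o) * w) ≤ O.valuation t ^ L := by
    by_contra hcon
    push Not at hcon
    rcases T.eq_empty_or_nonempty with hem | hne
    · rw [hem, Finset.prod_empty, map_one] at hsm
      exact absurd (pow_lt_one₀ zero_le vt1 (by omega)) (not_lt.2 hsm)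
    · have h1 := val_prod T _ (pow_pos vt0 L) hne (fun o ho => hcon o ho)
      rw [← map_prod, ← pow_mul, mul_comm] at h1
      exact absurd (hsm.trans (hmono (Nat.le_add_right _ _))) (not_le.2 h1)
  obtain ⟨o, hoT, ho⟩ := hex
  set z := ph K (zo m o) with hz
  set k := ko m o with hk
  set r := z * t ^ k with hr
  have hkpos : 0 < k := ko_pos m o
  obtain ⟨N, hN, hzN⟩ := zo_pow m o
  have hzN' : z ^ N = 1 := by rw [hz, ← map_pow, hzN, map_one]
  have vz : O.valuation z = 1 := val_root_one O hN hzN'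
  have hz0 : z ≠ 0 := by
    intro h
    rw [h, map_zero] at vz
    exact zero_ne_one vz
  have vr : O.valuation r = O.valuation t ^ k := by rw [hr, map_mul, vz, one_mul, map_pow]
  have vr1 : O.valuation r < 1 := by rw [vr]; exact pow_lt_one₀ zero_le vt1 hkpos.ne'
  have hrO : r ∈ O := (val_mem O).2 vr1.le
  have hr0 : r ≠ 0 := by rw [hr]; exact mul_ne_zero hz0 (pow_ne_zero _ ht0)
  obtain ⟨e', he', hE'⟩ := tr_E O (T.card * L) hrO
  obtain ⟨d', hd', hD'⟩ := tr_D O (T.card * L) hrO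
  have vE' := uE r e' vr1 he'
  have vD' := uD r d' vr1 hd'
  rw [hE', hD'] at ho
  set ε := (r - 24 * r ^ 2 + r ^ 3 * d') - (1 + 720 * r + r ^ 2 * e') * w with hε
  have hkle : k ≤ n ^ 2 := ko_le m o
  have hdiv : ∀ a b : K, a ∈ O → O.valuation b = 1 → a / b ∈ O := by
    intro a b ha hb
    rw [val_mem, map_div₀, hb, div_one]
    exact (val_mem O).1 ha
  have hβO : ε / r ^ 3 ∈ O := by
    rw [val_mem, map_div₀, map_pow, vr, ← pow_mul]
    exact div_le_one_of_le₀ (ho.trans (hmono (by rw [hL]; omega))) zero_le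
  set β := ε / r ^ 3 with hβ
  have hεβ : ε = r ^ 3 * β := by rw [hβ]; field_simp
  have hDne : (1 - 24 * q + q ^ 2 * d) ≠ 0 := by
    intro h; rw [h, map_zero] at vD; exact zero_ne_one vD
  have hxq : x * (q * (1 - 24 * q + q ^ 2 * d)) = 1 + 720 * q + q ^ 2 * e := by
    rw [show q * (1 - 24 * q + q ^ 2 * d) = q - 24 * q ^ 2 + q ^ 3 * d by ring, hqe, hs]
    field_simp
  refine ⟨o, hoT, t, ht0, ?_, ?_⟩
  · rw [ht]
    have hxqO : x * q ∈ O := by
      have h1 : x * q = (1 + 720 * q + q ^ 2 * e) / (1 - 24 * q + q ^ 2 * d) := by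
        rw [eq_div_iff hDne, ← hxq]; ring
      rw [h1]
      exact hdiv _ _ ((val_mem O).2 vE.le) vD
    set α := (e - d + 744 * 24 - 744 * q * d) / (1 - 24 * q + q ^ 2 * d) with hα
    have hαO : α ∈ O := hdiv _ _ (mem_sub O (mem_add O (mem_sub O he hd) (mem_mul O m744 m24))
      (mem_mul O (mem_mul O m744 hqO) hd)) vD
    have hαD : α * (1 - 24 * q + q ^ 2 * d) = e - d + 744 * 24 - 744 * q * d := div_mul_cancel₀ _ hDne
    have h2 : x ^ 2 * ((x - 744) * q - 1) = (x * q) ^ 2 * α := by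
      have h3 : (x - 744) * q - 1 = q ^ 2 * α := by
        apply mul_right_cancel₀ hDne
        linear_combination hxq - q ^ 2 * hαD
      rw [h3]
      ring
    rw [h2]
    exact mem_mul O (mem_pow O hxqO _) hαO
  · have vB : O.valuation (1 - 24 * r + r ^ 2 * d' - r ^ 2 * β) = 1 := by
      rw [sub_eq_add_neg, val_add_of_lt O, vD']
      rw [vD', Valuation.map_neg, show r ^ 2 * β = r * (r * β) by ring]
      exact lt_one_mul O vr1 (mem_mul O hrO hβO)
    have hBne : (1 - 24 * r + r ^ 2 * d' - r ^ 2 * β) ≠ 0 := by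
      intro h; rw [h, map_zero] at vB; exact zero_ne_one vB
    have hyr : y * (r * (1 - 24 * r + r ^ 2 * d' - r ^ 2 * β)) = 1 + 720 * r + r ^ 2 * e' := by
      have h1 : r * (1 - 24 * r + r ^ 2 * d' - r ^ 2 * β) = (1 + 720 * r + r ^ 2 * e') * w := by
        have h2 : (1 + 720 * r + r ^ 2 * e') * w = (r - 24 * r ^ 2 + r ^ 3 * d') - ε := by rw [hε]; ring
        rw [h2, hεβ]
        ring
      rw [h1, hw]
      field_simp
    have hyrO : y * r ∈ O := by
      have h1 : y * r = (1 + 720 * r + r ^ 2 * e') / (1 - 24 * r + r ^ 2 * d' - r ^ 2 * β) := by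
        rw [eq_div_iff hBne, ← hyr]; ring
      rw [h1]
      exact hdiv _ _ ((val_mem O).2 vE'.le) vB
    set γ := (e' - d' + 744 * 24 + β - 744 * r * d' + 744 * r * β) / (1 - 24 * r + r ^ 2 * d' - r ^ 2 * β)
      with hγ
    have hγO : γ ∈ O := hdiv _ _ (mem_add O (mem_sub O (mem_add O (mem_add O (mem_sub O he' hd')
      (mem_mul O m744 m24)) hβO) (mem_mul O (mem_mul O m744 hrO) hd')) (mem_mul O (mem_mul O m744 hrO) hβO)) vB
    have hγD : γ * (1 - 24 * r + r ^ 2 * d' - r ^ 2 * β) =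
        e' - d' + 744 * 24 + β - 744 * r * d' + 744 * r * β := div_mul_cancel₀ _ hBne
    have h2 : y ^ 2 * ((y - 744) * r - 1) = (y * r) ^ 2 * γ := by
      have h3 : (y - 744) * r - 1 = r ^ 2 * γ := by
        apply mul_right_cancel₀ hBne
        linear_combination hyr - r ^ 2 * hγD
      rw [h3]
      ring
    rw [h2]
    exact mem_mul O (mem_pow O hyrO _) hγO

end core

/-- sharp rigidity for the primitive modular polynomial -/
theorem primPoly_rigW (m : ℤ) [hm : Fact (0 < m)] (K : Type) [Field K] [IsAlgClosed K] [Algebra ℂ K]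
    (O : ValuationSubring K) {x y : K} (hx : x ∉ O) (hy : y ∉ O)
    (h : (primPoly m).eval₂ (Polynomial.eval₂RingHom ((algebraMap ℂ K).comp (algebraMap OO ℂ)) x) y = 0) :
    ∃ o ∈ TP m, ∃ t : K, t ≠ 0 ∧ x ^ 2 * ((x - 744) * t ^ m.toNat - 1) ∈ O ∧
      y ^ 2 * ((y - 744) * (ph K (zo m o) * t ^ ko m o) - 1) ∈ O :=
  rig_coreW (TP_stable m) O hx hy (primPoly_sum m h)

/-- `x ^ 2 (u - 1)` integral and `v x > 1`: then `u` is very close to one -/
lemma near_of_int2 {x u : ℂ} (hx : 1 < v x) (h : v (x ^ 2 * (u - 1)) ≤ 1) : v (u - 1) ≤ ((v x)⁻¹) ^ 2 := by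
  rw [map_mul, map_pow] at h
  have h0 : 0 < v x := zero_lt_one.trans hx
  rw [inv_pow, inv_eq_one_div, le_div_iff₀ (pow_pos h0 2), mul_comm]
  exact h

lemma v_sub_744 (hv : IsNonarchimedean v) {x : ℂ} (hx : 1 < v x) : v (x - 744) = v x := by
  have v744 : v (744 : ℂ) ≤ 1 := by exact_mod_cast v_ofNat_le hv 744
  rw [sub_eq_add_neg, v_add_eq hv (by rw [v_neg]; exact v744.trans_lt hx)]

/-- **the sharp shape of an isogeny** between two numbers of absolute value `> 1` -/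
theorem sharp_shape (hv : IsNonarchimedean v) {x y : ℂ} (hx : 1 < v x) (hy : 1 < v y) {N : ℕ} (hN : 0 < N)
    (h : CyclicIsog N x y) : ∃ (e f g : ℕ) (ζ : ℂ), 0 < e ∧ 0 < f ∧ Nat.Coprime e f ∧ 0 < g ∧
      v x ^ f = v y ^ e ∧ N = e * f * g ^ 2 ∧ IsPrimitiveRoot ζ g ∧
      v (ζ - (x - 744) ^ f / (y - 744) ^ e) ≤ max (((v x)⁻¹) ^ 2) (((v y)⁻¹) ^ 2) := by
  have hx00 : 0 < v x := zero_lt_one.trans hx
  have hy00 : 0 < v y := zero_lt_one.trans hy
  have hm : Fact (0 < (N : ℤ)) := ⟨by exact_mod_cast hN⟩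
  have hxO : x ∉ vring v hv := fun h => absurd (mem_vring.1 h) (not_le.2 hx)
  have hyO : y ∉ vring v hv := fun h => absurd (mem_vring.1 h) (not_le.2 hy)
  have hrel := (cyclicIsog_iff hN).1 h
  obtain ⟨o, ho, t, ht0, h1, h2⟩ := primPoly_rigW (N : ℤ) ℂ (vring v hv) hxO hyO hrel
  have e1 : ph ℂ (zo (N : ℤ) o) = ((zo (N : ℤ) o : OO) : ℂ) := rfl
  rw [e1] at h2
  have h3 := near_of_int2 hx (mem_vring.1 h1)
  have h4 := near_of_int2 hy (mem_vring.1 h2)
  have hltx : ((v x)⁻¹) ^ 2 < 1 := pow_lt_one₀ (inv_nonneg.2 hx00.le) (inv_lt_one_of_one_lt₀ hx) two_ne_zero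
  have hlty : ((v y)⁻¹) ^ 2 < 1 := pow_lt_one₀ (inv_nonneg.2 hy00.le) (inv_lt_one_of_one_lt₀ hy) two_ne_zero
  set c := x - 744 with hc
  set c' := y - 744 with hc'
  have vc : v c = v x := v_sub_744 hv hx
  have vc' : v c' = v y := v_sub_744 hv hy
  set n := (N : ℤ).toNat with hn
  set k := ko (N : ℤ) o with hk
  have h5 : v x ^ k = v y ^ n := by
    have h5 := v_one_of_near hv (h3.trans_lt hltx)
    have h6 := v_one_of_near hv (h4.trans_lt hlty)
    obtain ⟨N', hN', hz⟩ := zo_pow (N : ℤ) o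
    have vz : v ((zo (N : ℤ) o : OO) : ℂ) = 1 := by
      have h7 : v ((zo (N : ℤ) o : OO) : ℂ) ^ N' = 1 := by
        rw [← map_pow]
        have h8 := congrArg (Subtype.val : OO → ℂ) hz
        rw [show (((zo (N : ℤ) o : OO) : ℂ)) ^ N' = 1 by simpa using h8, map_one]
      exact (pow_eq_one_iff_of_nonneg (AbsoluteValue.nonneg v _) hN'.ne').1 h7
    rw [map_mul, map_pow, vc] at h5
    rw [map_mul, map_mul, map_pow, vz, one_mul, vc'] at h6
    have h7 : v x ^ k * v t ^ (n * k) = 1 := by rw [pow_mul, ← mul_pow, h5, one_pow]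
    have h8 : v y ^ n * v t ^ (n * k) = 1 := by rw [mul_comm n k, pow_mul, ← mul_pow, h6, one_pow]
    have h9 : v t ^ (n * k) ≠ 0 := pow_ne_zero _ ((AbsoluteValue.ne_zero_iff v).2 ht0)
    exact mul_right_cancel₀ h9 (h7.trans h8.symm)
  obtain ⟨e, f, he, hf, hcop, hef⟩ := exp_reduce (mtoNat_pos (N : ℤ)) (ko_pos (N : ℤ) o) h5
  set ρ' := max (((v x)⁻¹) ^ 2) (((v y)⁻¹) ^ 2) with hρ'
  have hρ1 : ρ' < 1 := max_lt hltx hlty
  have hc00 : c ≠ 0 := (AbsoluteValue.pos_iff v).1 (by rw [vc]; exact hx00)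
  have hc00' : c' ≠ 0 := (AbsoluteValue.pos_iff v).1 (by rw [vc']; exact hy00)
  set u : ℂ := c ^ f / c' ^ e with hu
  have vu : v u = 1 := by
    rw [hu, map_div₀, map_pow, map_pow, vc, vc', hef]
    exact div_self (pow_pos hy00 _).ne'
  have hnf : n * f = k * e := by
    have h6 : v x ^ (n * f) = v x ^ (k * e) := by
      calc v x ^ (n * f) = (v x ^ f) ^ n := by rw [mul_comm, pow_mul]
        _ = (v y ^ n) ^ e := by rw [hef, ← pow_mul, ← pow_mul, mul_comm]
        _ = v x ^ (k * e) := by rw [← h5, ← pow_mul]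
    exact pow_right_injective₀ hx00 hx.ne' h6
  obtain ⟨g, hg, hgm, -, hroot⟩ := TP_rootG (N : ℤ) ho he hnf
  have hcop' := hcop
  rw [Nat.Coprime] at hcop'
  rw [hcop', Nat.div_one] at hroot
  rw [hcop'] at hgm
  set z : ℂ := ((zo (N : ℤ) o : OO) : ℂ) with hz
  have hz0 : z ≠ 0 := by
    intro h0
    rw [h0, zero_pow he.ne'] at hroot
    have := hroot.pow_eq_one
    rw [zero_pow hg.ne'] at this
    exact zero_ne_one this
  have hA : v (c * t ^ n - 1) ≤ ρ' := h3.trans (le_max_left _ _)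
  have hB : v (c' * (z * t ^ k) - 1) ≤ ρ' := h4.trans (le_max_right _ _)
  have key : z ^ e = u * ((c' * (z * t ^ k)) ^ e * ((c * t ^ n) ^ f)⁻¹) := by
    have h6 : (t ^ k) ^ e = (t ^ n) ^ f := by rw [← pow_mul, ← pow_mul, hnf]
    have htf : (t ^ n) ^ f ≠ 0 := pow_ne_zero _ (pow_ne_zero _ ht0)
    rw [hu, mul_pow, mul_pow, mul_pow, h6]
    field_simp
  have hnear : v (z ^ e - u) ≤ ρ' := by
    have h6 := near_mul hv hρ1 (near_pow hv hρ1 hB e) (near_inv hv hρ1 (near_pow hv hρ1 hA f))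
    have h7 : z ^ e - u = u * (((c' * (z * t ^ k)) ^ e * ((c * t ^ n) ^ f)⁻¹) - 1) := by
      rw [mul_sub, mul_one, ← key]
    rw [h7, map_mul, vu, one_mul]
    exact h6
  refine ⟨e, f, g, z ^ e, he, hf, hcop, hg, hef, ?_, hroot, hnear⟩
  have h9 : (N : ℤ) * ((1 : ℕ) : ℤ) ^ 2 = e * f * g ^ 2 := hgm
  rw [Nat.cast_one, one_pow, mul_one] at h9
  exact_mod_cast h9

end Pool.Agent.Helper69.Y13
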